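import Pool.Agent.TH133.PW.Kun

/-!
# MP_a60482_ag: Kunneth components and sums of two decomposable classes

Let `X` be a smooth proper variety of dimension `n` over a field and `W` any Weil cohomology theory,
with coefficient field `K`; algebraic classes have coefficients in `K`, as in the problem. By
duality the `i`-th Kunneth component of the diagonal of `X` is algebraic if and only if every class
`τ ∈ H ^ (2 n)(X × X)` orthogonal to all algebraic classes is orthogonal to it. We prove that it is
enough to consider the classes `τ = y × w + y' × w'` which are sums of two products of homogeneous
classes, `y`, `w`, `y'`, `w'` of degrees `i`, `2 n - i`, `j`, `2 n - j` with `j ≠ i`. Equivalently, it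
is enough to separate each pair of classes `y ∈ H ^ i(X)` and `y' ∈ H ^ j(X)` by a combination of
algebraic correspondences which may depend on the pair; and it is enough that the subspaces of `H(X)`
stable under the algebraic correspondences of degree zero contain the components of degree `i` of
their elements. Nothing is assumed about `W` (no rationality of traces, no hard Lefschetz).
-/

open CategoryTheory AlgebraicGeometry

universe u v

namespace Pool.Agent.Results.MP_a60482_ag.DecomposableClasses

open Pool.Agent.H914 Pool.Agent.H914.VarClass Pool.Agent.TH133.PW

/-- **The Kunneth component is algebraic if and only if pairs of classes can be separated, if and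
only if algebraic cycles detect the sums of two products of homogeneous classes.** -/
theorem result {k : Type u} [Field k] {𝒱 : VarClass k} {ops : CycleOps 𝒱}
    (W : WeilCohomology.{u, v} ops) (X : 𝒱.Obj) (i : ℕ) :
    [ProjectorInSpan (W.gr X) i (cycleOperators W X X.dim),
      Separates (W.gr X) i (cycleOperators W X X.dim), DetectsPairs W X i,
      StableSplit (W.gr X) i (cycleOperators W X X.dim)].TFAE :=
  kunneth_span_tfae i

end Pool.Agent.Results.MP_a60482_ag.DecomposableClasses
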