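import Pool.Agent.TH26.Mid.Main

/-!
# The Kunneth standard conjecture is a statement on the middle Kunneth components

`𝒱` is a class of smooth projective (geometrically irreducible) varieties over the field `k` closed
under products, `C` the Chow groups with rational coefficients (in the form of their formal properties,
`IsChowProj`) and `H` a Weil cohomology theory with coefficients in the field `K` (`IsWeilProj`; no
Lefschetz theorem is used). `F` is a subfield of `K`: for `F = K` algebraic classes are `K`-linear
combinations of classes of cycles, for `F` the prime field `ℚ` they are rational ones. `E` is a curve of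
genus `g > 0` in `𝒱`.

(1) For all `X`, `r ≥ 0` and `N`: the `N`-th Kunneth component of `X × E^r` is algebraic if and only if the
`i`-th Kunneth component of `X` is algebraic for all `i` with `N - 2 r ≤ i ≤ N`.

(2) Let `n = dim X` and `r ≥ n`. All Kunneth components of `X` are algebraic if and only if the middle
Kunneth component of `Y = X × E^r` is algebraic, and if and only if some algebraic class on `Y × Y` acts
as the identity on the middle cohomology `H^d(Y)`, `d = dim Y`, and as zero on `H^l(Y)` for all `l < d`
(no condition above the middle).

(3) Let `S` be a set of pairs `(d, i)` on which `min(i, 2 d - i)` is unbounded (for example the pairs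
`(d, d)` with `d` in an infinite set). The Kunneth conjecture for all varieties of the class is equivalent
to the algebraicity of the `i`-th Kunneth component of `Y` for all `Y` and `i` with `(dim Y, i)` in `S`.

(4) Let `S` be an infinite set of integers. The Kunneth conjecture for all varieties of the class is
equivalent to the one-sided condition of (2) for all `Y` of dimension in `S`.

Proof. Let `β` be one of the three Kunneth components of `E` (it is algebraic), and `β'` a cycle on `E × E`
whose intersection number with `β` is one; it exists because of `g > 0`, the self-intersection number of the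
middle component being `-2 g`. If `π` is the `N`-th Kunneth component of `X × E`, then the operator
`a ↦ pr_* (β' · (π × id) (a × β))` on `H(X)`, `pr : X × E × E → X`, is the `(N - j)`-th Kunneth component of
`X`, where `β` lies in `H^j(E) × H^(2-j)(E)`; and it is induced by an algebraic correspondence. The converse
is the Kunneth formula. The one-sided form follows by composition with the transpose. No graded
commutativity of `H` is used.
-/

open CategoryTheory AlgebraicGeometry

set_option autoImplicit false

universe u v w

namespace Pool.Agent.Results.MP_a60482_ag.MiddleKunnethComponent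

open Pool.Agent.H914 Pool.Agent.W492.BB Pool.Agent.TH133 Pool.Agent.TH26.Mid

/-- (1) The `N`-th Kunneth component of `X × E^r` is algebraic iff the `i`-th one of `X` is for all `i`
with `N - 2 r ≤ i ≤ N`; (2) for `r ≥ dim X` all Kunneth components of `X` are algebraic iff the middle one
of `X × E^r` is, and iff the middle cohomology of `X × E^r` can be split off from the cohomology below by an
algebraic class; (3) the Kunneth conjecture for all varieties is equivalent to the algebraicity of one
Kunneth component in each of a sequence of dimensions `d` (of degree `i` with `i` and `2 d - i` unbounded);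
(4) and to the one-sided condition in the middle degree of the varieties of infinitely many
dimensions. -/
theorem result {k : Type u} [Field k] {𝒱 : VarClass k} (C : TheoryData.{u, v, 0} 𝒱 ℚ)
    [IsChowProj C] {K : Type w} [Field K] (H : WeilTheoryData.{u, v, w} C K) [IsWeilProj H]
    (F : Subfield K) (E : 𝒱.Obj) (g : ℕ) (hg : 0 < g) (hE : IsCurveOfGenus C E g) :
    (∀ (X : 𝒱.Obj) (r : ℕ) (N : ℤ), ComponentAlgebraic H F (timesPow X E r) N ↔
      ∀ i : ℤ, N - 2 * r ≤ i → i ≤ N → ComponentAlgebraic H F X i) ∧
    (∀ (X : 𝒱.Obj) (r : ℕ), X.dim ≤ r →
      ((∀ i : ℤ, ComponentAlgebraic H F X i) ↔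
        ComponentAlgebraic H F (timesPow X E r) (X.dim + r)) ∧
      ((∀ i : ℤ, ComponentAlgebraic H F X i) ↔ SplitsFromBelow H F (timesPow X E r))) ∧
    (∀ S : Set (ℕ × ℤ), (∀ B : ℤ, ∃ p ∈ S, B ≤ p.2 ∧ B ≤ 2 * p.1 - p.2) →
      ((∀ (X : 𝒱.Obj) (i : ℤ), ComponentAlgebraic H F X i) ↔
        ∀ (X : 𝒱.Obj) (i : ℤ), (X.dim, i) ∈ S → ComponentAlgebraic H F X i)) ∧
    (∀ S : Set ℕ, S.Infinite →
      ((∀ (X : 𝒱.Obj) (i : ℤ), ComponentAlgebraic H F X i) ↔
        ∀ X : 𝒱.Obj, X.dim ∈ S → SplitsFromBelow H F X)) :=
  ⟨fun X r N => component_pow_iff hg hE X r N,
    fun X _ hr => ⟨(middle_iff hg hE X hr).1.symm, (middle_iff hg hE X hr).2.symm⟩,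
    fun _ hS => (family_iff hg hE hS).symm,
    fun _ hS => (splits_family_iff hg hE hS).symm⟩

end Pool.Agent.Results.MP_a60482_ag.MiddleKunnethComponent
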