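import Pool.Agent.H447R3.KuB

/-!
# The Kunneth standard conjecture modulo numerical equivalence

Let `X` be a smooth proper variety of dimension `n` over an algebraically closed field and `W` a Weil
cohomology theory (hard Lefschetz is not assumed). The Kunneth components of the diagonal of `X` are
algebraic if and only if there are cycles `z i` of codimension `n` on `X × X` with rational
coefficients such that

* `z i` has the same intersection numbers with all cycles of codimension `n` on `X × X` as the
  `i`-th Kunneth component of the diagonal;
* the `z i` are orthogonal projectors up to numerical equivalence: the composition of `z i` and `z j`
  is numerically equivalent to `z i` if `i = j`, and to `0` otherwise.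

Neither that homological and numerical equivalence coincide nor the sign conjecture is assumed. In
particular the standard conjecture C follows from its statement modulo numerical equivalence.
-/

open Pool.Agent.H914 Pool.Agent.H447 Pool.Agent.H914.VarClass

universe u v

namespace Pool.Agent.Results.MP_a60482_ag.NumericalForm

/-- **The Kunneth standard conjecture is equivalent to its numerical form.** -/
theorem result {k : Type u} [Field k] [IsAlgClosed k] {𝒱 : VarClass k} {ops : CycleOps 𝒱}
    (W : WeilCohomology.{u, v} ops) (X : 𝒱.Obj) : KunnethStd W X ↔ KunnethNum W X :=
  kunneth_iff_num

end Pool.Agent.Results.MP_a60482_ag.NumericalForm
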